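import Pool.Agent.TH966.CC.Main
import Pool.Agent.V11321.CP.Cap2
import Pool.Agent.W424.NC.ArmLow

/-!
Critical bond percolation on `ℤ²` (`p = 1/2`) in the rectangle `[0, w] × [0, h]`: the probability
that ARBITRARY subsets `S` and `T` of the left and of the right side are joined by an open path of
the rectangle is, up to constants, the product of the probability of a left-right crossing of the
rectangle and of the capacities of order `1/3` of `S` and of `T` (the boundary one-arm exponent of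
conformal invariance is `1/3`). The constants depend only on the bound for `h / w` and on the
relative distance of `S` and `T` to the corners; they depend neither on the sets nor on the size.

Consequence for the scaling limit: for closed sets `K`, `L` of the two sides, the probability that
their lattice approximations are joined is, as the mesh tends to `0`, of the order of the product of
the Riesz capacities of order `1/3` of `K` and `L`. In particular it stays away from `0` if both
capacities are positive and tends to `0` otherwise.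

The proof of the discrete estimate is in the starting files `Pool.Agent.TH966.CC`, the passage to
the Riesz capacities is in `Pool.Agent.V11321.CP`.
-/

set_option autoImplicit false

namespace Pool.Agent.Results.MP_35f495_pr.CapacityCrossings

open MeasureTheory

/-- The square lattice: two points of `ℤ²` are adjacent when they differ by one in exactly one
coordinate. -/
def Z2 : SimpleGraph (ℤ × ℤ) where
  Adj u v := |u.1 - v.1| + |u.2 - v.2| = 1
  symm := ⟨fun u v h => by rw [abs_sub_comm v.1, abs_sub_comm v.2]; exact h⟩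
  loopless := ⟨fun u h => by simp at h⟩

/-- Critical bond percolation: every edge of the square lattice is open (`true`) with
probability `1/2`, independently of the other edges. -/
noncomputable def crit : Measure (Z2.edgeSet → Bool) :=
  Measure.infinitePi (fun _ => ProbabilityTheory.bernoulliMeasure true false
    ⟨1/2, by norm_num, by norm_num⟩)

/-- The vertices of the rectangle `[0, w] × [0, h]`. -/
def rect (w h : ℤ) : Set (ℤ × ℤ) := {v | (0 ≤ v.1 ∧ v.1 ≤ w) ∧ (0 ≤ v.2 ∧ v.2 ≤ h)}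

/-- The graph of the open edges of the rectangle. -/
def openGraph (w h : ℤ) (ω : Z2.edgeSet → Bool) : SimpleGraph (ℤ × ℤ) :=
  SimpleGraph.fromEdgeSet {e | (∃ h : e ∈ Z2.edgeSet, ω ⟨e, h⟩ = true) ∧ ∀ v ∈ e, v ∈ rect w h}

/-- The probability that an open path of the rectangle joins some vertex `(0, s)`, `s ∈ S`, to some
vertex `(w, t)`, `t ∈ T`. -/
noncomputable def cross (w h : ℤ) (S T : Finset ℤ) : ℝ :=
  crit.real {ω | ∃ s ∈ S, ∃ t ∈ T, (openGraph w h ω).Reachable (0, s) (w, t)}

/-- The energy of order `1/3` (normalised by the length `h` of the side) of a weight `v` on `S`. -/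
noncomputable def energy (h : ℤ) (S : Finset ℤ) (v : ℤ → ℝ) : ℝ :=
  ∑ x ∈ S, ∑ y ∈ S, v x * v y * (((h : ℝ) + 1) / (|(x : ℝ) - y| + 1)) ^ ((1 : ℝ) / 3)

/-- The capacity of order `1/3` of `S`: the supremum of the inverse of the energy over all
probability weights on `S` (it is `0` for the empty set). -/
noncomputable def capacity (h : ℤ) (S : Finset ℤ) : ℝ :=
  sSup {r | ∃ v : ℤ → ℝ, (∀ x ∈ S, 0 ≤ v x) ∧ ∑ x ∈ S, v x = 1 ∧ r = 1 / energy h S v}

/-- The Riesz energy of order `1/3` of a measure. -/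
noncomputable def rieszEnergy (ν : Measure ℝ) : ENNReal :=
  ∫⁻ x, ∫⁻ y, (ENNReal.ofReal |x - y|) ^ (-(1/3) : ℝ) ∂ν ∂ν

/-- The Riesz capacity of order `1/3` of a set `K` of real numbers: the supremum of the inverse of
the energy over all the probability measures carried by `K`. -/
noncomputable def rieszCap (K : Set ℝ) : ℝ :=
  (⨆ (ν : Measure ℝ) (_ : IsProbabilityMeasure ν) (_ : ν Kᶜ = 0), (rieszEnergy ν)⁻¹).toReal

open Classical in
/-- The approximation of `K` at the mesh `1 / n`: the integers `x` of `[0, n]` such that `x / n` is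
at distance at most `1 / n` from a point of `K`. -/
noncomputable def approx (n : ℤ) (K : Set ℝ) : Finset ℤ :=
  (Finset.Icc 0 n).filter (fun x => ∃ t ∈ K, |(x : ℝ) - n * t| ≤ 1)

/-! ### Comparison with the library -/

open H974 in
theorem openGraph_adj (w h : ℤ) (ω : Z2.edgeSet → Bool) (u v : ℤ × ℤ) :
    (openGraph w h ω).Adj u v ↔ Adj (↑(FF (RE 0 w 0 h) ω) : Set Edg) u v := by
  unfold openGraph
  rw [SimpleGraph.fromEdgeSet_adj]
  constructor
  · rintro ⟨⟨⟨h1, hω⟩, hV⟩, hne⟩
    have hadj : (H974.openGraph ω).Adj u v := by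
      unfold H974.openGraph
      rw [SimpleGraph.fromEdgeSet_adj]
      exact ⟨⟨h1, hω⟩, hne⟩
    obtain ⟨e, he, hcase⟩ := (H974.openGraph_adj ω u v).mp hadj
    have hu : u ∈ rect w h := hV u (Sym2.mem_mk_left u v)
    have hv : v ∈ rect w h := hV v (Sym2.mem_mk_right u v)
    refine ⟨e, ?_, hcase⟩
    rw [Finset.mem_coe, mem_FF]
    refine ⟨?_, he⟩
    rcases hcase with ⟨h1, h2⟩ | ⟨h1, h2⟩
    · exact H731C.RE_of_ends (by rw [h1]; exact hu) (by rw [h2]; exact hv)
    · exact H731C.RE_of_ends (by rw [h1]; exact hv) (by rw [h2]; exact hu)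
  · rintro ⟨e, he, hcase⟩
    rw [Finset.mem_coe, mem_FF] at he
    have hadj : (H974.openGraph ω).Adj u v := (H974.openGraph_adj ω u v).mpr ⟨e, he.2, hcase⟩
    unfold H974.openGraph at hadj
    rw [SimpleGraph.fromEdgeSet_adj] at hadj
    refine ⟨⟨hadj.1, ?_⟩, hadj.2⟩
    obtain ⟨a1, b1⟩ := H731C.RE_ends he.1
    intro x hx
    rcases Sym2.mem_iff.mp hx with rfl | rfl
    · rcases hcase with ⟨h1, h2⟩ | ⟨h1, h2⟩
      · rw [← h1]; exact a1
      · rw [← h2]; exact b1
    · rcases hcase with ⟨h1, h2⟩ | ⟨h1, h2⟩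
      · rw [← h2]; exact b1
      · rw [← h1]; exact a1

open H974 Pool.Agent.H160R2.CV Pool.Agent.TH966.CC in
theorem cross_eq (w h : ℤ) (S T : Finset ℤ) :
    cross w h S T = Pr P (RE 0 w 0 h) (Cr w h S T) := by
  have key : ∀ (ω : Z2.edgeSet → Bool) (u v : ℤ × ℤ), (openGraph w h ω).Reachable u v ↔
      Reach (↑(FF (RE 0 w 0 h) ω) ∩ ↑(RE 0 w 0 h) : Set Edg) u v := by
    intro ω u v
    rw [SimpleGraph.reachable_iff_reflTransGen]
    have e1 : (↑(FF (RE 0 w 0 h) ω) ∩ ↑(RE 0 w 0 h) : Set Edg) = ↑(FF (RE 0 w 0 h) ω) := by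
      rw [Set.inter_eq_left]
      intro e he
      rw [Finset.mem_coe, mem_FF] at he
      exact Finset.mem_coe.mpr he.1
    have e2 : (openGraph w h ω).Adj = Adj (↑(FF (RE 0 w 0 h) ω) : Set Edg) := by
      funext u v
      exact propext (openGraph_adj w h ω u v)
    rw [e1, e2]
    rfl
  have e2 : {ω : Z2.edgeSet → Bool | ∃ s ∈ S, ∃ t ∈ T, (openGraph w h ω).Reachable (0, s) (w, t)} =
      {ω | Cr w h S T (FF (RE 0 w 0 h) ω)} := by
    ext ω
    constructor
    · rintro ⟨s, hs, t, ht, hr⟩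
      exact ⟨s, hs, t, ht, (key ω _ _).mp hr⟩
    · rintro ⟨s, hs, t, ht, hr⟩
      exact ⟨s, hs, t, ht, (key ω _ _).mpr hr⟩
  have h6 := H974.law_event H974.hlf (RE 0 w 0 h) (Cr w h S T)
  exact (congrArg (fun s => (H974.bondLaw H974.hlf).real s) e2).trans h6

open H974 Pool.Agent.H160R2.CV Pool.Agent.TH966.CC in
theorem cross_all {w : ℤ} (hw : 1 ≤ w) (h : ℤ) :
    cross w h (Finset.Icc 0 h) (Finset.Icc 0 h) = hh (1/2) w h := by
  rw [cross_eq]
  have h1 : hh (1/2) w h = Pr P (RE 0 w 0 h) (LRc 0 w 0 h) :=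
    (pr_LRc0 (1/2) (S := RE 0 w 0 h) LRE_subset_RE).symm
  rw [h1]
  apply Pr_congr
  intro F _
  constructor
  · rintro ⟨s, hs, t, ht, hr⟩
    exact LRc_of_reach (by omega) hr rfl rfl
  · rintro ⟨y, y', h2, h3, hr⟩
    exact ⟨y, Finset.mem_Icc.mpr h2, y', Finset.mem_Icc.mpr h3,
      hr.mono (Set.inter_subset_inter_right _ (by exact_mod_cast LRE_subset_RE))⟩

open H934E Pool.Agent.TH966.CC in
theorem kern_eq {h : ℤ} (hh0 : 0 ≤ h) (x y : ℤ) :
    (((h : ℝ) + 1) / (|(x : ℝ) - y| + 1)) ^ ((1 : ℝ) / 3) = kern h x y := by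
  have h1 : (0 : ℝ) ≤ (h : ℝ) + 1 := by
    have : (0 : ℝ) ≤ h := by exact_mod_cast hh0
    linarith
  have h2 : (0 : ℝ) ≤ |(x : ℝ) - y| + 1 := by positivity
  unfold kern q th
  rw [Real.div_rpow h1 h2]
  push_cast
  rw [div_div_div_eq, one_mul, mul_one]

open Pool.Agent.TH966.CC in
theorem capacity_eq {h : ℤ} (hh0 : 0 ≤ h) (S : Finset ℤ) : capacity h S = Cap h S := by
  unfold capacity Cap CS
  have : ∀ v : ℤ → ℝ, energy h S v = en h S v := by
    intro v
    unfold energy en
    apply Finset.sum_congr rfl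
    intro x _
    apply Finset.sum_congr rfl
    intro y _
    rw [kern_eq hh0]
  simp only [this]

/-- The discrete estimate. -/
theorem discrete (κ : ℕ) (hκ : 1 ≤ κ) : ∃ c C : ℝ, 0 < c ∧ 0 < C ∧
    ∀ w h : ℤ, 1 ≤ w → 1 ≤ h → h ≤ κ * w → ∀ S T : Finset ℤ,
      (∀ x ∈ S, h ≤ κ * x ∧ h ≤ κ * (h - x)) → (∀ x ∈ T, h ≤ κ * x ∧ h ≤ κ * (h - x)) →
      c * (cross w h (Finset.Icc 0 h) (Finset.Icc 0 h) * capacity h S * capacity h T) ≤
        cross w h S T ∧
      cross w h S T ≤
        C * (cross w h (Finset.Icc 0 h) (Finset.Icc 0 h) * capacity h S * capacity h T) := by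
  obtain ⟨c, hc, h1⟩ := Pool.Agent.TH966.CC.cr_low κ hκ
  obtain ⟨C, hC, h2⟩ := Pool.Agent.TH966.CC.cr_up κ hκ
  refine ⟨c, C, hc, hC, fun w h hw hh hhw S T hS hT => ?_⟩
  rw [cross_all hw, cross_eq, capacity_eq (by omega), capacity_eq (by omega)]
  exact ⟨h1 w h hw hh hhw S T hS hT, h2 w h hw hh hhw S T hS hT⟩

/-- the lattice points of the approximation are far from the corners -/
theorem approx_mid {κ : ℕ} (hκ : 1 ≤ κ) {n : ℤ} (hn : 2 * (κ : ℤ) ≤ n) {K : Set ℝ}
    (hK : K ⊆ Set.Icc (1 / (κ:ℝ)) (1 - 1 / κ)) :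
    ∀ x ∈ approx n K, n ≤ ((2 * κ : ℕ) : ℤ) * x ∧ n ≤ ((2 * κ : ℕ) : ℤ) * (n - x) := by
  intro x hx
  obtain ⟨-, t, ht, h1⟩ := Pool.Agent.V11321.CP.mem_lat.1 hx
  have hκ0 : (0:ℝ) < κ := by exact_mod_cast hκ
  have hn' : 2 * (κ:ℝ) ≤ n := by exact_mod_cast hn
  have hn0 : (0:ℝ) < n := by linarith
  obtain ⟨t1, t2⟩ := hK ht
  obtain ⟨a1, a2⟩ := abs_le.1 h1
  have b1 : (n:ℝ) ≤ κ * (n * t) := by
    have : 1 ≤ κ * t := by
      rw [div_le_iff₀ hκ0] at t1
      linarith
    nlinarith
  have b2 : (n:ℝ) ≤ κ * (n * (1 - t)) := by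
    have : 1 ≤ κ * (1 - t) := by
      have : 1 / (κ:ℝ) ≤ 1 - t := by linarith
      rw [div_le_iff₀ hκ0] at this
      linarith
    nlinarith
  constructor
  · have : (n:ℝ) ≤ 2 * κ * x := by nlinarith
    push_cast
    exact_mod_cast this
  · have : (n:ℝ) ≤ 2 * κ * (n - x) := by nlinarith
    push_cast
    exact_mod_cast this

open H974 in
theorem cross_all_low (κ : ℕ) : ∃ c : ℝ, 0 < c ∧ ∀ w n : ℤ, 1 ≤ w → 1 ≤ n → w ≤ κ * n →
    c ≤ cross w n (Finset.Icc 0 n) (Finset.Icc 0 n) := by
  obtain ⟨q, hq, hW⟩ := H12S.win_half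
  refine ⟨q * Real.exp (-(2 * |Real.log (1 / q)|) * κ), by positivity, ?_⟩
  intro w n hw hn hwn
  rw [cross_all hw]
  obtain ⟨a, ha⟩ : ∃ a : ℕ, (a:ℤ) = w := ⟨w.toNat, by omega⟩
  obtain ⟨b, hb⟩ : ∃ b : ℕ, (b:ℤ) = n := ⟨n.toNat, by omega⟩
  rw [← ha, ← hb]
  have h1 := Pool.Agent.W424.NC.hh_exp (hW b) (m := b) (n := a) (by omega) (by omega)
  refine le_trans ?_ h1
  apply mul_le_mul_of_nonneg_left _ hq.le
  apply Real.exp_le_exp.2
  have hb0 : (0:ℝ) < b := by exact_mod_cast (by omega : 0 < b)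
  have h2 : (a:ℝ) / b ≤ κ := by
    rw [div_le_iff₀ hb0]
    rw [← ha, ← hb] at hwn
    exact_mod_cast hwn
  have h3 : 0 ≤ (a:ℝ) / b := by positivity
  have h4 := le_abs_self (Real.log (1 / q))
  have h5 : 0 ≤ |Real.log (1 / q)| := abs_nonneg _
  nlinarith [mul_le_mul_of_nonneg_right h4 h3, mul_le_mul_of_nonneg_left h2 h5]

/-- **Connection probabilities of arbitrary subsets of opposite sides of a rectangle, in terms of
capacities.** (1) For every `κ` there are constants `c, C > 0` such that for all `w, h ≥ 1` with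
`h ≤ κ w` and for all sets `S`, `T` of heights at distance at least `h / κ` from the corners
(`h ≤ κ x` and `h ≤ κ (h - x)`), the probability that `{0} × S` and `{w} × T` are joined by an open
path of the rectangle is between `c` and `C` times the product of the probability of a left-right
crossing and of the capacities of `S` and `T`. (2) For every `κ` there are `c, C > 0` such that for
all closed sets `K`, `L` of `[1 / κ, 1 - 1 / κ]`, the probability that the approximations of
`{0} × K` and `{w / n} × L` at the mesh `1 / n` are joined in the rectangle `[0, w] × [0, n]`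
(`1 / κ ≤ w / n ≤ κ`) is at least `c` times the product of the Riesz capacities of `K` and `L`, for
all `n ≥ 2 κ`, and at most `C` times this product plus `ε`, for all large `n`. -/
theorem result (κ : ℕ) (hκ : 1 ≤ κ) :
    (∃ c C : ℝ, 0 < c ∧ 0 < C ∧
      ∀ w h : ℤ, 1 ≤ w → 1 ≤ h → h ≤ κ * w → ∀ S T : Finset ℤ,
        (∀ x ∈ S, h ≤ κ * x ∧ h ≤ κ * (h - x)) → (∀ x ∈ T, h ≤ κ * x ∧ h ≤ κ * (h - x)) →
        c * (cross w h (Finset.Icc 0 h) (Finset.Icc 0 h) * capacity h S * capacity h T) ≤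
          cross w h S T ∧
        cross w h S T ≤
          C * (cross w h (Finset.Icc 0 h) (Finset.Icc 0 h) * capacity h S * capacity h T)) ∧
    (∃ c C : ℝ, 0 < c ∧ 0 < C ∧ ∀ K L : Set ℝ, IsClosed K → IsClosed L →
      K ⊆ Set.Icc (1 / (κ:ℝ)) (1 - 1 / κ) → L ⊆ Set.Icc (1 / (κ:ℝ)) (1 - 1 / κ) →
      (∀ w n : ℤ, 2 * κ ≤ n → n ≤ κ * w → w ≤ κ * n →
        c * (rieszCap K * rieszCap L) ≤ cross w n (approx n K) (approx n L)) ∧
      (∀ ε : ℝ, 0 < ε → ∃ N : ℤ, ∀ w n : ℤ, N ≤ n → n ≤ κ * w → w ≤ κ * n →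
        cross w n (approx n K) (approx n L) ≤ C * (rieszCap K * rieszCap L) + ε)) := by
  refine ⟨discrete κ hκ, ?_⟩
  obtain ⟨c, C, hc, hC, hd⟩ := discrete (2 * κ) (by omega)
  obtain ⟨q, hq, hall⟩ := cross_all_low κ
  refine ⟨c * q / 4, 4 * C, by positivity, by positivity, ?_⟩
  intro K L hKc hLc hK hL
  have hκ1 : (1:ℤ) ≤ κ := by exact_mod_cast hκ
  have hκr : (0:ℝ) < κ := by exact_mod_cast hκ
  have h01 : ∀ M : Set ℝ, M ⊆ Set.Icc (1 / (κ:ℝ)) (1 - 1 / κ) → M ⊆ Set.Icc (0:ℝ) 1 := by
    intro M hM t ht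
    obtain ⟨t1, t2⟩ := hM ht
    have : 0 < 1 / (κ:ℝ) := by positivity
    exact ⟨by linarith, by linarith⟩
  have hr0 : ∀ M : Set ℝ, 0 ≤ rieszCap M := fun M => ENNReal.toReal_nonneg
  have hcapeq : ∀ (n : ℤ) (M : Set ℝ), capacity n (approx n M) =
      Pool.Agent.V11321.CP.cp n (Pool.Agent.V11321.CP.lat n M) := fun n M => rfl
  have hnb : ∀ (n : ℤ) (M : Set ℝ), 0 ≤ capacity n (approx n M) := by
    intro n M
    rw [hcapeq]
    apply Real.sSup_nonneg
    rintro r ⟨v, h1, h2, rfl⟩
    have := Pool.Agent.V11321.CP.en_ge Pool.Agent.V11321.CP.lat_range h1 h2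
    positivity
  have hone : ∀ (n : ℤ) (M : Set ℝ), capacity n (approx n M) ≤ 1 := by
    intro n M
    rw [hcapeq]
    apply Real.sSup_le _ zero_le_one
    rintro r ⟨v, h1, h2, rfl⟩
    have := Pool.Agent.V11321.CP.en_ge Pool.Agent.V11321.CP.lat_range h1 h2
    rw [div_le_one (by linarith)]
    exact this
  have hlow : ∀ (n : ℤ) (M : Set ℝ), 1 ≤ n → M ⊆ Set.Icc (0:ℝ) 1 →
      rieszCap M ≤ 2 * capacity n (approx n M) := by
    intro n M hn hM
    have h1 := Pool.Agent.V11321.CP.cap_lower hn hM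
    rw [← hcapeq] at h1
    exact ENNReal.toReal_le_of_le_ofReal (mul_nonneg (by norm_num) (hnb n M)) h1
  have hr2 : ∀ M : Set ℝ, M ⊆ Set.Icc (0:ℝ) 1 → rieszCap M ≤ 2 := by
    intro M hM
    have h1 := hlow 1 M le_rfl hM
    have h2 := hone 1 M
    linarith
  have hprob : IsProbabilityMeasure crit := by unfold crit; infer_instance
  have hcr1 : ∀ w n : ℤ, ∀ S T : Finset ℤ, cross w n S T ≤ 1 := fun w n S T => measureReal_le_one
  have hcr0 : ∀ w n : ℤ, ∀ S T : Finset ℤ, 0 ≤ cross w n S T := fun w n S T => measureReal_nonneg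
  constructor
  · intro w n hn hnw hwn
    have hw1 : 1 ≤ w := by
      by_contra h
      push Not at h
      have : (κ:ℤ) * w ≤ 0 := mul_nonpos_of_nonneg_of_nonpos (by omega) (by omega)
      omega
    have h1 := (hd w n hw1 (by omega) (by push_cast; nlinarith) (approx n K) (approx n L)
      (approx_mid hκ hn hK) (approx_mid hκ hn hL)).1
    have h2 := hall w n hw1 (by omega) hwn
    have h3 := hlow n K (by omega) (h01 K hK)
    have h4 := hlow n L (by omega) (h01 L hL)
    refine le_trans ?_ h1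
    have h5 : rieszCap K * rieszCap L ≤
        (2 * capacity n (approx n K)) * (2 * capacity n (approx n L)) :=
      mul_le_mul h3 h4 (hr0 L) (mul_nonneg (by norm_num) (hnb n K))
    have h6 : 0 ≤ capacity n (approx n K) * capacity n (approx n L) :=
      mul_nonneg (hnb n K) (hnb n L)
    have h7 := mul_le_mul_of_nonneg_right h2 h6
    calc c * q / 4 * (rieszCap K * rieszCap L) ≤ c * q / 4 *
          ((2 * capacity n (approx n K)) * (2 * capacity n (approx n L))) :=
          mul_le_mul_of_nonneg_left h5 (by positivity)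
      _ = c * (q * (capacity n (approx n K) * capacity n (approx n L))) := by ring
      _ ≤ c * (cross w n (Finset.Icc 0 n) (Finset.Icc 0 n) *
          (capacity n (approx n K) * capacity n (approx n L))) :=
          mul_le_mul_of_nonneg_left h7 hc.le
      _ = _ := by ring
  · intro ε hε
    obtain ⟨η, hη⟩ : ∃ η : ℝ, η = min 1 (ε / (9 * C)) := ⟨_, rfl⟩
    have hη0 : 0 < η := by rw [hη]; positivity
    have hη1 : η ≤ 1 := by rw [hη]; exact min_le_left _ _
    have hη2 : 9 * C * η ≤ ε := by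
      have : η ≤ ε / (9 * C) := by rw [hη]; exact min_le_right _ _
      rw [le_div_iff₀ (by positivity)] at this
      linarith
    obtain ⟨N1, hN1⟩ := Pool.Agent.V11321.CP.cap_upper hKc (h01 K hK) hη0
    obtain ⟨N2, hN2⟩ := Pool.Agent.V11321.CP.cap_upper hLc (h01 L hL) hη0
    refine ⟨max (max N1 N2) (2 * κ), ?_⟩
    intro w n hn hnw hwn
    have hn1 : N1 ≤ n := (le_max_left _ _).trans ((le_max_left _ _).trans hn)
    have hn2 : N2 ≤ n := (le_max_right _ _).trans ((le_max_left _ _).trans hn)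
    have hn3 : 2 * (κ:ℤ) ≤ n := (le_max_right _ _).trans hn
    have hw1 : 1 ≤ w := by
      by_contra h
      push Not at h
      have : (κ:ℤ) * w ≤ 0 := mul_nonpos_of_nonneg_of_nonpos (by omega) (by omega)
      omega
    have h1 := (hd w n hw1 (by omega) (by push_cast; nlinarith) (approx n K) (approx n L)
      (approx_mid hκ hn3 hK) (approx_mid hκ hn3 hL)).2
    have k1 : capacity n (approx n K) ≤ 2 * rieszCap K + η := hN1 n hn1
    have k2 : capacity n (approx n L) ≤ 2 * rieszCap L + η := hN2 n hn2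
    have h6 : 0 ≤ capacity n (approx n K) * capacity n (approx n L) :=
      mul_nonneg (hnb n K) (hnb n L)
    have h7 : cross w n (Finset.Icc 0 n) (Finset.Icc 0 n) *
        (capacity n (approx n K) * capacity n (approx n L)) ≤
        1 * (capacity n (approx n K) * capacity n (approx n L)) :=
      mul_le_mul_of_nonneg_right (hcr1 _ _ _ _) h6
    have h8 : capacity n (approx n K) * capacity n (approx n L) ≤
        (2 * rieszCap K + η) * (2 * rieszCap L + η) :=
      mul_le_mul k1 k2 (hnb n L) ((hnb n K).trans k1)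
    have r1 := hr2 K (h01 K hK)
    have r2 := hr2 L (h01 L hL)
    have r3 := hr0 K
    have r4 := hr0 L
    have h9 : (2 * rieszCap K + η) * (2 * rieszCap L + η) ≤
        4 * (rieszCap K * rieszCap L) + 9 * η := by nlinarith
    calc cross w n (approx n K) (approx n L) ≤ C * (cross w n (Finset.Icc 0 n)
          (Finset.Icc 0 n) * capacity n (approx n K) * capacity n (approx n L)) := h1
      _ = C * (cross w n (Finset.Icc 0 n) (Finset.Icc 0 n) *
          (capacity n (approx n K) * capacity n (approx n L))) := by ring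
      _ ≤ C * (4 * (rieszCap K * rieszCap L) + 9 * η) :=
          mul_le_mul_of_nonneg_left (by linarith) hC.le
      _ = 4 * C * (rieszCap K * rieszCap L) + 9 * C * η := by ring
      _ ≤ _ := by linarith

end Pool.Agent.Results.MP_35f495_pr.CapacityCrossings
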