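import Pool.Agent.TH976.QC.Fin
import Pool.Agent.H160R2.SA.Arm
import Pool.Agent.V11321.QL.Fin

/-!
Critical bond percolation on `ℤ²` (`p = 1/2`) in the quadrant `{x ≥ 0, y ≥ 0}`: the probability
that two boundary intervals are joined by an open path of the quadrant is given by Cardy's formula,
up to universal multiplicative constants, for all positions of the two intervals: on one side or on
both sides of the corner, containing the corner, as small as one vertex, adjacent, or half-infinite;
and the same for the probability of the complement. The map `z ↦ z²` takes the quadrant to the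
half-plane and the boundary point of parameter `t` to `t |t|`; Cardy's formula is evaluated at the
cross-ratio of the images of the four end points, so it is the conformal image of Cardy's formula in
the half-plane. Moreover, subsequential scaling limits: every sequence of scales has a subsequence
along which the crossing probabilities converge for all the pairs of disjoint real intervals at
once; every limit is a continuous function of the four end points, with the same bounds.

The proof of the first three parts is in the starting files `Pool.Agent.TH976.QC`; the fourth part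
is new (`Pool.Agent.V11321.QL`).
-/

set_option autoImplicit false

namespace Pool.Agent.Results.MP_35f495_pr.CardyQuadrant

open MeasureTheory

/-- The square lattice: two points of `ℤ²` are adjacent when they differ by one in exactly one
coordinate. -/
def Z2 : SimpleGraph (ℤ × ℤ) where
  Adj u v := |u.1 - v.1| + |u.2 - v.2| = 1
  symm := ⟨fun u v h => by rw [abs_sub_comm v.1, abs_sub_comm v.2]; exact h⟩
  loopless := ⟨fun u h => by simp at h⟩

/-- Critical bond percolation: every edge of the square lattice is open (`true`) with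
probability `1/2`, independently of the other edges. -/
noncomputable def crit : Measure (Z2.edgeSet → Bool) :=
  Measure.infinitePi (fun _ => ProbabilityTheory.bernoulliMeasure true false
    ⟨1/2, by norm_num, by norm_num⟩)

/-- The graph of the open edges. -/
def openGraph (ω : Z2.edgeSet → Bool) : SimpleGraph (ℤ × ℤ) :=
  SimpleGraph.fromEdgeSet {e | ∃ h : e ∈ Z2.edgeSet, ω ⟨e, h⟩ = true}

/-- The boundary vertex of the quadrant with parameter `t`: `(t, 0)` for `t ≥ 0` and `(0, -t)` for
`t ≤ 0`. -/
def bdry (t : ℤ) : ℤ × ℤ := (max t 0, max (-t) 0)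

/-- The crossing probability of the quadrant: the probability that an open path of the quadrant
joins a boundary vertex with parameter in `I` to a boundary vertex with parameter in `J`. -/
noncomputable def cross (I J : Set ℤ) : ℝ :=
  crit.real {ω | ∃ x ∈ I, ∃ y ∈ J, ∃ p : (openGraph ω).Walk (bdry x) (bdry y),
    ∀ v ∈ p.support, 0 ≤ v.1 ∧ 0 ≤ v.2}

/-- The image under `z ↦ z²` of the boundary point of parameter `t`: `t²` for `t ≥ 0` and `-t²` for
`t ≤ 0`. -/
noncomputable def im (t : ℝ) : ℝ := t * |t|

/-- The cross-ratio of four points of the real line. -/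
noncomputable def crossRatio (z₁ z₂ z₃ z₄ : ℝ) : ℝ :=
  ((z₂ - z₁) * (z₄ - z₃)) / ((z₃ - z₁) * (z₄ - z₂))

/-- Cardy's function of the cross-ratio. -/
noncomputable def cardy (x : ℝ) : ℝ :=
  (∫ u in (0 : ℝ)..x, u ^ (-(2/3) : ℝ) * (1 - u) ^ (-(2/3) : ℝ)) /
    ∫ u in (0 : ℝ)..1, u ^ (-(2/3) : ℝ) * (1 - u) ^ (-(2/3) : ℝ)

/-- The crossing probability at the scale `n`, for the real intervals `[a, b]` and `[c', d]`. -/
noncomputable def scaled (n : ℕ) (a b c' d : ℝ) : ℝ :=
  cross (Set.Icc ⌈a * n⌉ ⌊b * n⌋) (Set.Icc ⌈c' * n⌉ ⌊d * n⌋)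

/-- **Cardy's formula up to constants in the quadrant.** The intervals `[a, b]` and `[c', d]` of
parameters are represented by the arcs from `a - 1` to `b` and from `c'` to `d + 1`. The second and
third parts are the half-infinite intervals `(-∞, b]` and `[c', ∞)`. The fourth part: subsequential
scaling limits, for all quadruples at once, their continuity, and Cardy's formula for them up to the
same constants. -/
theorem result : ∃ c C : ℝ, 0 < c ∧ 0 < C ∧
    (∀ a b c' d : ℤ, a ≤ b → b < c' → c' ≤ d →
      c * cardy (crossRatio (im ((a : ℝ) - 1)) (im b) (im c') (im ((d : ℝ) + 1))) ≤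
        cross (Set.Icc a b) (Set.Icc c' d) ∧
      cross (Set.Icc a b) (Set.Icc c' d) ≤
        C * cardy (crossRatio (im ((a : ℝ) - 1)) (im b) (im c') (im ((d : ℝ) + 1))) ∧
      c * (1 - cardy (crossRatio (im ((a : ℝ) - 1)) (im b) (im c') (im ((d : ℝ) + 1)))) ≤
        1 - cross (Set.Icc a b) (Set.Icc c' d) ∧
      1 - cross (Set.Icc a b) (Set.Icc c' d) ≤
        C * (1 - cardy (crossRatio (im ((a : ℝ) - 1)) (im b) (im c') (im ((d : ℝ) + 1))))) ∧
    (∀ b c' d : ℤ, b < c' → c' ≤ d →
      c * cardy ((im ((d : ℝ) + 1) - im c') / (im ((d : ℝ) + 1) - im b)) ≤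
        cross (Set.Iic b) (Set.Icc c' d) ∧
      cross (Set.Iic b) (Set.Icc c' d) ≤
        C * cardy ((im ((d : ℝ) + 1) - im c') / (im ((d : ℝ) + 1) - im b)) ∧
      c * (1 - cardy ((im ((d : ℝ) + 1) - im c') / (im ((d : ℝ) + 1) - im b))) ≤
        1 - cross (Set.Iic b) (Set.Icc c' d) ∧
      1 - cross (Set.Iic b) (Set.Icc c' d) ≤
        C * (1 - cardy ((im ((d : ℝ) + 1) - im c') / (im ((d : ℝ) + 1) - im b)))) ∧
    (∀ a b c' : ℤ, a ≤ b → b < c' →
      c * cardy ((im b - im ((a : ℝ) - 1)) / (im c' - im ((a : ℝ) - 1))) ≤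
        cross (Set.Icc a b) (Set.Ici c') ∧
      cross (Set.Icc a b) (Set.Ici c') ≤
        C * cardy ((im b - im ((a : ℝ) - 1)) / (im c' - im ((a : ℝ) - 1))) ∧
      c * (1 - cardy ((im b - im ((a : ℝ) - 1)) / (im c' - im ((a : ℝ) - 1)))) ≤
        1 - cross (Set.Icc a b) (Set.Ici c') ∧
      1 - cross (Set.Icc a b) (Set.Ici c') ≤
        C * (1 - cardy ((im b - im ((a : ℝ) - 1)) / (im c' - im ((a : ℝ) - 1))))) ∧
    (∀ ψ : ℕ → ℕ, StrictMono ψ → ∃ φ : ℕ → ℕ, StrictMono φ ∧ ∃ Q : ℝ → ℝ → ℝ → ℝ → ℝ,
      (∀ a b c' d : ℝ, a < b → b < c' → c' < d →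
        Filter.Tendsto (fun j => scaled (ψ (φ j)) a b c' d) Filter.atTop (nhds (Q a b c' d))) ∧
      ContinuousOn (fun t : ℝ × ℝ × ℝ × ℝ => Q t.1 t.2.1 t.2.2.1 t.2.2.2)
        {t | t.1 < t.2.1 ∧ t.2.1 < t.2.2.1 ∧ t.2.2.1 < t.2.2.2} ∧
      ∀ a b c' d : ℝ, a < b → b < c' → c' < d →
        c * cardy (crossRatio (im a) (im b) (im c') (im d)) ≤ Q a b c' d ∧
        Q a b c' d ≤ C * cardy (crossRatio (im a) (im b) (im c') (im d)) ∧
        c * (1 - cardy (crossRatio (im a) (im b) (im c') (im d))) ≤ 1 - Q a b c' d ∧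
        1 - Q a b c' d ≤ C * (1 - cardy (crossRatio (im a) (im b) (im c') (im d)))) := by
  obtain ⟨c, C, hc, hC, h1, h2, h3⟩ := TH976.QC.cardy_quadrant Pool.Agent.H160R2.SA.arSharp
  exact ⟨c, C, hc, hC, h1, h2, h3, fun ψ hψ => Pool.Agent.V11321.QL.subseq h1 ψ hψ⟩

end Pool.Agent.Results.MP_35f495_pr.CardyQuadrant
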