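import Pool.Agent.H985R6.LC.All
import Pool.Agent.V11321.LL.Lim

/-!
Critical bond percolation on `ℤ²` (`p = 1/2`) in the upper half-plane: the local form of Cardy's
formula, up to universal multiplicative constants. For `N ≥ 1` let `T` be the first vertex `(k, 0)`,
`k ≥ 0`, which is joined to `(-∞, -N] × {0}` by an open path of the half-plane. The probability that
`T = k` is of order `N ^ (1/3) (k + 1) ^ (-2/3) (N + k) ^ (-2/3)`, for all `N` and `k`; the
probability that `k ≤ T ≤ l` is the increment of Cardy's function up to constants.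

Consequence: every sequence of meshes has a subsequence along which the crossing probabilities
between `(-∞, -a]` and `[0, b]` converge for all `b ≥ 0` simultaneously, and each such subsequential
limit is, as a function of the cross-ratio `b / (a + b)`, absolutely continuous with a density which
lies between two universal constants times Cardy's density (that is, the limit law of `T / N` has a
density between two universal constants with respect to Cardy's law, the hitting law of SLE(6)).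

The proof of the discrete estimates is in the starting files `Pool.Agent.H985R6.LC`, that of the
limit theorem in `Pool.Agent.V11321.LL`.
-/

set_option autoImplicit false

namespace Pool.Agent.Results.MP_35f495_pr.LocalCardy

open MeasureTheory

/-- The square lattice: two points of `ℤ²` are adjacent when they differ by one in exactly one
coordinate. -/
def Z2 : SimpleGraph (ℤ × ℤ) where
  Adj u v := |u.1 - v.1| + |u.2 - v.2| = 1
  symm := ⟨fun u v h => by rw [abs_sub_comm v.1, abs_sub_comm v.2]; exact h⟩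
  loopless := ⟨fun u h => by simp at h⟩

/-- Critical bond percolation: every edge of the square lattice is open (`true`) with
probability `1/2`, independently of the other edges. -/
noncomputable def crit : Measure (Z2.edgeSet → Bool) :=
  Measure.infinitePi (fun _ => ProbabilityTheory.bernoulliMeasure true false
    ⟨1/2, by norm_num, by norm_num⟩)

/-- The graph of the open edges. -/
def openGraph (ω : Z2.edgeSet → Bool) : SimpleGraph (ℤ × ℤ) :=
  SimpleGraph.fromEdgeSet {e | ∃ h : e ∈ Z2.edgeSet, ω ⟨e, h⟩ = true}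

/-- The boundary sets `I × {0}` and `J × {0}` are joined by an open path of the closed upper
half-plane. -/
def Joined (I J : Set ℤ) : Set (Z2.edgeSet → Bool) :=
  {ω | ∃ x ∈ I, ∃ y ∈ J, ∃ p : (openGraph ω).Walk (x, 0) (y, 0), ∀ v ∈ p.support, 0 ≤ v.2}

/-- Its probability. -/
noncomputable def cross (I J : Set ℤ) : ℝ := crit.real (Joined I J)

/-- The probability that `k` is the first point of `{0, 1, 2, …}` which is joined to
`(-∞, -N]`. -/
noncomputable def first (N k : ℤ) : ℝ :=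
  crit.real (Joined (Set.Iic (-N)) {k} \ Joined (Set.Iic (-N)) (Set.Icc 0 (k - 1)))

/-- Cardy's function of the cross-ratio. -/
noncomputable def cardy (x : ℝ) : ℝ :=
  (∫ u in (0 : ℝ)..x, u ^ (-(2/3) : ℝ) * (1 - u) ^ (-(2/3) : ℝ)) /
    ∫ u in (0 : ℝ)..1, u ^ (-(2/3) : ℝ) * (1 - u) ^ (-(2/3) : ℝ)

/-- Cardy's density, the derivative of `cardy`. -/
noncomputable def density (u : ℝ) : ℝ :=
  u ^ (-(2/3) : ℝ) * (1 - u) ^ (-(2/3) : ℝ) /
    ∫ u in (0 : ℝ)..1, u ^ (-(2/3) : ℝ) * (1 - u) ^ (-(2/3) : ℝ)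

/-- The discrete estimates. -/
theorem discrete : ∃ c C : ℝ, 0 < c ∧ 0 < C ∧
    (∀ N k : ℤ, 1 ≤ N → 0 ≤ k →
      c * ((N : ℝ) ^ ((1 : ℝ) / 3) / (((k : ℝ) + 1) ^ ((2 : ℝ) / 3) *
        ((N : ℝ) + k) ^ ((2 : ℝ) / 3))) ≤ first N k ∧
      first N k ≤ C * ((N : ℝ) ^ ((1 : ℝ) / 3) / (((k : ℝ) + 1) ^ ((2 : ℝ) / 3) *
        ((N : ℝ) + k) ^ ((2 : ℝ) / 3)))) ∧
    (∀ N k l : ℤ, 1 ≤ N → 0 ≤ k → k ≤ l →
      c * (cardy (((l + 1 : ℤ) : ℝ) / ((N : ℝ) + ((l + 1 : ℤ) : ℝ))) -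
        cardy ((k : ℝ) / ((N : ℝ) + k))) ≤
        cross (Set.Iic (-N)) (Set.Icc 0 l) - cross (Set.Iic (-N)) (Set.Icc 0 (k - 1)) ∧
      cross (Set.Iic (-N)) (Set.Icc 0 l) - cross (Set.Iic (-N)) (Set.Icc 0 (k - 1)) ≤
        C * (cardy (((l + 1 : ℤ) : ℝ) / ((N : ℝ) + ((l + 1 : ℤ) : ℝ))) -
          cardy ((k : ℝ) / ((N : ℝ) + k)))) ∧
    (∀ a b b' : ℝ, 0 < a → 0 ≤ b → b < b' → ∀ᶠ n : ℕ in Filter.atTop,
      c * (cardy (b' / (a + b')) - cardy (b / (a + b))) ≤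
        cross {x : ℤ | (x : ℝ) ≤ -(a * n)} {y : ℤ | 0 ≤ y ∧ (y : ℝ) ≤ b' * n} -
          cross {x : ℤ | (x : ℝ) ≤ -(a * n)} {y : ℤ | 0 ≤ y ∧ (y : ℝ) ≤ b * n} ∧
      cross {x : ℤ | (x : ℝ) ≤ -(a * n)} {y : ℤ | 0 ≤ y ∧ (y : ℝ) ≤ b' * n} -
          cross {x : ℤ | (x : ℝ) ≤ -(a * n)} {y : ℤ | 0 ≤ y ∧ (y : ℝ) ≤ b * n} ≤
        C * (cardy (b' / (a + b')) - cardy (b / (a + b)))) :=
  H985LC.final H985LC.all_wb H985LC.t_fd H985LC.t_lm H985LC.t_cy

theorem cross_empty (I : Set ℤ) : cross I ∅ = 0 := by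
  unfold cross Joined
  simp

theorem left_eq {a : ℝ} (n : ℕ) : {x : ℤ | (x : ℝ) ≤ -(a * n)} = Set.Iic (-⌈a * n⌉) := by
  ext x
  show (x : ℝ) ≤ -(a * n) ↔ x ≤ -⌈a * n⌉
  constructor
  · intro h
    have h1 : a * n ≤ ((-x : ℤ) : ℝ) := by push_cast; linarith
    have h2 := Int.ceil_le.2 h1
    omega
  · intro h
    have h1 : ⌈a * (n:ℝ)⌉ ≤ -x := by omega
    have h2 := Int.ceil_le.1 h1
    push_cast at h2
    linarith

open Filter Topology in
/-- **Local form of Cardy's formula in the half-plane, up to constants, and the subsequential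
scaling limits of the crossing probabilities.** -/
theorem result : ∃ c C : ℝ, 0 < c ∧ 0 < C ∧
    -- the probability of one point
    (∀ N k : ℤ, 1 ≤ N → 0 ≤ k →
      c * ((N : ℝ) ^ ((1 : ℝ) / 3) / (((k : ℝ) + 1) ^ ((2 : ℝ) / 3) *
        ((N : ℝ) + k) ^ ((2 : ℝ) / 3))) ≤ first N k ∧
      first N k ≤ C * ((N : ℝ) ^ ((1 : ℝ) / 3) / (((k : ℝ) + 1) ^ ((2 : ℝ) / 3) *
        ((N : ℝ) + k) ^ ((2 : ℝ) / 3)))) ∧
    -- the increments of the crossing probability and of Cardy's function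
    (∀ N k l : ℤ, 1 ≤ N → 0 ≤ k → k ≤ l →
      c * (cardy (((l + 1 : ℤ) : ℝ) / ((N : ℝ) + ((l + 1 : ℤ) : ℝ))) -
        cardy ((k : ℝ) / ((N : ℝ) + k))) ≤
        cross (Set.Iic (-N)) (Set.Icc 0 l) - cross (Set.Iic (-N)) (Set.Icc 0 (k - 1)) ∧
      cross (Set.Iic (-N)) (Set.Icc 0 l) - cross (Set.Iic (-N)) (Set.Icc 0 (k - 1)) ≤
        C * (cardy (((l + 1 : ℤ) : ℝ) / ((N : ℝ) + ((l + 1 : ℤ) : ℝ))) -
          cardy ((k : ℝ) / ((N : ℝ) + k)))) ∧
    -- the scaling limit (mesh `1 / n`)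
    (∀ a b b' : ℝ, 0 < a → 0 ≤ b → b < b' → ∀ᶠ n : ℕ in Filter.atTop,
      c * (cardy (b' / (a + b')) - cardy (b / (a + b))) ≤
        cross {x : ℤ | (x : ℝ) ≤ -(a * n)} {y : ℤ | 0 ≤ y ∧ (y : ℝ) ≤ b' * n} -
          cross {x : ℤ | (x : ℝ) ≤ -(a * n)} {y : ℤ | 0 ≤ y ∧ (y : ℝ) ≤ b * n} ∧
      cross {x : ℤ | (x : ℝ) ≤ -(a * n)} {y : ℤ | 0 ≤ y ∧ (y : ℝ) ≤ b' * n} -
          cross {x : ℤ | (x : ℝ) ≤ -(a * n)} {y : ℤ | 0 ≤ y ∧ (y : ℝ) ≤ b * n} ≤
        C * (cardy (b' / (a + b')) - cardy (b / (a + b)))) ∧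
    -- the subsequential limits: existence for all `b` simultaneously, absolute continuity, density
    (∀ a : ℝ, 0 < a → ∀ φ : ℕ → ℕ, StrictMono φ → ∃ ψ : ℕ → ℕ, StrictMono ψ ∧
      ∃ ρ : ℝ → ℝ, Measurable ρ ∧
        (∀ u ∈ Set.Ioo (0 : ℝ) 1, c * density u ≤ ρ u ∧ ρ u ≤ C * density u) ∧
        ∀ b : ℝ, 0 ≤ b → Tendsto (fun j : ℕ =>
          cross {x : ℤ | (x : ℝ) ≤ -(a * (φ (ψ j) : ℕ))}
            {y : ℤ | 0 ≤ y ∧ (y : ℝ) ≤ b * (φ (ψ j) : ℕ)}) atTop
          (𝓝 (∫ u in (0 : ℝ)..(b / (a + b)), ρ u))) := by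
  obtain ⟨c, C, hc, hC, h1, h2, h3⟩ := discrete
  refine ⟨c, C, hc, hC, h1, h2, h3, ?_⟩
  have hcC : c ≤ C := by
    have h4 := h1 1 0 le_rfl le_rfl
    norm_num at h4
    exact h4.1.trans h4.2
  have hprob : IsProbabilityMeasure crit := by unfold crit; infer_instance
  intro a ha φ hφ
  have h5 := Pool.Agent.V11321.LL.sub_lim
    (F := fun n b => cross {x : ℤ | (x : ℝ) ≤ -(a * n)} {y : ℤ | 0 ≤ y ∧ (y : ℝ) ≤ b * n})
    (fun n b => measureReal_nonneg) (fun n b => measureReal_le_one) ha hc hcC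
    (fun b b' hb hbb => h3 a b b' ha hb hbb) (by
      have hlim : Tendsto (fun n : ℕ => C * cardy (1 / ((⌈a * (n:ℝ)⌉ : ℝ) + 1))) atTop
          (𝓝 (C * cardy 0)) := by
        apply Tendsto.const_mul
        have hx : Tendsto (fun n : ℕ => 1 / ((⌈a * (n:ℝ)⌉ : ℝ) + 1)) atTop (𝓝 0) := by
          have h6 : Tendsto (fun n : ℕ => (⌈a * (n:ℝ)⌉ : ℝ) + 1) atTop atTop := by
            apply tendsto_atTop_mono (f := fun n : ℕ => a * (n:ℝ))
            · intro n
              have := Int.le_ceil (a * (n:ℝ))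
              linarith
            · exact (tendsto_natCast_atTop_atTop).const_mul_atTop ha
          exact (tendsto_const_nhds).div_atTop h6
        have hc0 : ContinuousWithinAt Pool.Agent.V11321.LL.cd (Set.Icc 0 1) 0 :=
          Pool.Agent.V11321.LL.cd_cont 0 ⟨le_rfl, zero_le_one⟩
        refine hc0.tendsto.comp (tendsto_nhdsWithin_iff.2 ⟨hx, ?_⟩)
        refine Eventually.of_forall fun n => ?_
        have h7 : (0:ℝ) ≤ ⌈a * (n:ℝ)⌉ := by
          have h8 : 0 ≤ a * (n:ℝ) := by positivity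
          exact h8.trans (Int.le_ceil _)
        constructor
        · positivity
        · rw [div_le_one (by linarith)]
          linarith
      have hz0 : cardy 0 = 0 := by unfold cardy; simp
      rw [hz0, mul_zero] at hlim
      refine squeeze_zero' (Eventually.of_forall fun n => measureReal_nonneg) ?_ hlim
      filter_upwards [eventually_ge_atTop 1] with n hn
      have hn0 : (0:ℝ) < n := by exact_mod_cast hn
      have hN : 1 ≤ ⌈a * (n:ℝ)⌉ := by
        have h8 : 0 < a * (n:ℝ) := by positivity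
        have := Int.ceil_pos.2 h8
        omega
      have h9 := (h2 ⌈a * (n:ℝ)⌉ 0 0 hN le_rfl le_rfl).2
      have e1 : (Set.Icc (0:ℤ) (0 - 1)) = ∅ := by
        rw [Set.Icc_eq_empty_iff]; norm_num
      have e2 : {y : ℤ | 0 ≤ y ∧ (y : ℝ) ≤ (0:ℝ) * n} = Set.Icc 0 0 := by
        ext y
        rw [zero_mul, Set.mem_Icc]
        show 0 ≤ y ∧ (y:ℝ) ≤ 0 ↔ _
        constructor
        · rintro ⟨k1, k2⟩
          exact ⟨k1, by exact_mod_cast k2⟩
        · rintro ⟨k1, k2⟩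
          exact ⟨k1, by exact_mod_cast k2⟩
      rw [left_eq, e2]
      rw [e1, cross_empty, sub_zero] at h9
      refine h9.trans (mul_le_mul_of_nonneg_left ?_ hC.le)
      have e4 : (((0 : ℤ) : ℝ) / ((⌈a * (n:ℝ)⌉ : ℝ) + ((0 : ℤ) : ℝ))) = 0 := by simp
      have e5 : ((((0 + 1 : ℤ)) : ℝ) / ((⌈a * (n:ℝ)⌉ : ℝ) + (((0 + 1 : ℤ)) : ℝ))) =
          1 / ((⌈a * (n:ℝ)⌉ : ℝ) + 1) := by norm_num
      rw [e4, e5, hz0, sub_zero]) hφ
  obtain ⟨ψ, hψ, ρ, hρ, hb, hlim⟩ := h5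
  exact ⟨ψ, hψ, ρ, hρ, hb, hlim⟩

end Pool.Agent.Results.MP_35f495_pr.LocalCardy
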