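import Pool.Agent.H981R2.TP.Plane2
import Pool.Agent.V11321.ST.Ext

/-!
Critical bond percolation on `ℤ²` (`p = 1/2`) in the plane slit along a half line and in slit
strips: the exact probability that the tip of the slit is joined to a line parallel to the slit, and
its asymptotics with the exact constant, for all ratios of the distances: conformal covariance of
this connection probability, with the weight `1/6` at the tip. Moreover the exact law and the full
scaling limit of the backward extent of the connection: the least `p` such that the tip is joined to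
the line `X = 1 + r` on the right of the line `X = 1 - p`, conditionally on the connection.

Coordinates: the vertex `(u, v)` of `ℤ²` is at `X + i Y`, `X = u - v`, `Y = u + v` (rotation by 45
degrees). The slit is the half line `X = 1`, `Y ≥ 1`, its tip is the vertex `(1, 0)`.

The proof of the parts (1)-(4) is in the starting files `Pool.Agent.H981R2.TP`; the parts (5)-(7)
are new (`Pool.Agent.V11321.ST`).
-/

set_option autoImplicit false

namespace Pool.Agent.Results.MP_35f495_pr.SlitTipExact

open MeasureTheory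

/-- edges of `ℤ²`: `(u,v,false)` joins `(u,v)` and `(u+1,v)`; `(u,v,true)` joins `(u,v)` and
`(u,v+1)`. -/
abbrev Edge := ℤ × ℤ × Bool

/-- configurations (`true` = open) -/
abbrev Conf := Edge → Bool

/-- `a` and `b` are the two ends of an open edge -/
def OpenAdj (ω : Conf) (a b : ℤ × ℤ) : Prop :=
  (b = (a.1 + 1, a.2) ∧ ω (a.1, a.2, false) = true) ∨
  (a = (b.1 + 1, b.2) ∧ ω (b.1, b.2, false) = true) ∨
  (b = (a.1, a.2 + 1) ∧ ω (a.1, a.2, true) = true) ∨
  (a = (b.1, b.2 + 1) ∧ ω (b.1, b.2, true) = true)

/-- bond percolation at `p = 1/2`: independent fair coins on the edges -/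
noncomputable def perc : Measure Conf :=
  Measure.infinitePi (fun _ : Edge => (PMF.uniformOfFintype Bool).toMeasure)

/-- open edges of the plane slit along `X = 1`, `Y ≥ 1`: the edges above height `1` which touch the
column `X = 1` are removed -/
def SlitAdj (ω : Conf) (x y : ℤ × ℤ) : Prop :=
  OpenAdj ω x y ∧ ¬ (1 ≤ x.1 + x.2 ∧ 1 ≤ y.1 + y.2 ∧ (x.1 - x.2 = 1 ∨ y.1 - y.2 = 1))

/-- open edges of the slit strip `1 - p ≤ X ≤ 1 + r` -/
def SlitStripAdj (p r : ℕ) (ω : Conf) (x y : ℤ × ℤ) : Prop :=
  SlitAdj ω x y ∧ 1 - (p:ℤ) ≤ x.1 - x.2 ∧ x.1 - x.2 ≤ 1 + r ∧ 1 - (p:ℤ) ≤ y.1 - y.2 ∧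
    y.1 - y.2 ≤ 1 + r

/-- the tip `(1, 0)` of the slit is joined to the right side `X = 1 + r` of the slit strip
`1 - p ≤ X ≤ 1 + r` by an open path of the slit strip -/
def StripArm (p r : ℕ) : Set Conf :=
  {ω | ∃ y : ℤ × ℤ, y.1 - y.2 = 1 + r ∧ Relation.ReflTransGen (SlitStripAdj p r ω) (1, 0) y}

/-- the tip `(1, 0)` of the slit is joined to the line `X = 1 + r` by an open path of the slit
plane -/
def PlaneArm (r : ℕ) : Set Conf :=
  {ω | ∃ y : ℤ × ℤ, y.1 - y.2 = 1 + r ∧ Relation.ReflTransGen (SlitAdj ω) (1, 0) y}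

/-- rising factorial `s (s + 1) ⋯ (s + k - 1)` -/
noncomputable def rising (s : ℝ) (k : ℕ) : ℝ := ∏ i ∈ Finset.range k, (s + i)

/-- the backward extent: the least `p` such that the tip is joined to the line `X = 1 + r` by an
open path of the slit strip `1 - p ≤ X ≤ 1 + r` -/
noncomputable def extent (ω : Conf) (r : ℕ) : ℕ := sInf {p : ℕ | ω ∈ StripArm p r}

/-- **Exact connection probability of the tip of a slit.** (1) The exact value in the slit strips.
(2) The exact value in the slit plane. (3) The asymptotics in the slit strips, uniformly in the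
shape: the ratio `p / r` of the distances need not converge. (4) The asymptotics in the slit
plane. (5) The exact law of the backward extent, conditionally on the connection in the slit plane.
(6) Its scaling limit. (7) The scaling limit of the conditional probability that the tip is joined
to the line `X = 1 + ⌊z n⌋` inside the strip of backward extent `⌊x n⌋`. -/
theorem result :
    (∀ p r : ℕ, Odd p → Even r → 0 < r → perc.real (StripArm p r) =
      (rising (2/3) p * rising (1/3) r * rising (1/2) (p + r)) /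
        (rising (1/2) p * rising (1/2) r * rising (2/3) (p + r))) ∧
    (∀ r : ℕ, Even r → 0 < r → perc.real (PlaneArm r) = rising (1/3) r / rising (1/2) r) ∧
    (∀ p r : ℕ → ℕ, Filter.Tendsto p Filter.atTop Filter.atTop →
      Filter.Tendsto r Filter.atTop Filter.atTop →
      Filter.Tendsto (fun n => perc.real (StripArm (p n) (r n)) *
        ((r n : ℝ) * (p n + r n) / p n) ^ ((1:ℝ)/6)) Filter.atTop
        (nhds (Real.sqrt Real.pi / Real.Gamma (1/3)))) ∧
    Filter.Tendsto (fun r : ℕ => perc.real (PlaneArm r) * (r : ℝ) ^ ((1:ℝ)/6)) Filter.atTop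
      (nhds (Real.sqrt Real.pi / Real.Gamma (1/3))) ∧
    (∀ p r : ℕ, Odd p → Even r → 0 < r →
      perc.real {ω | ω ∈ PlaneArm r ∧ extent ω r ≤ p} / perc.real (PlaneArm r) =
        (rising (2/3) p * rising (1/2) (p + r)) / (rising (1/2) p * rising (2/3) (p + r))) ∧
    (∀ x : ℝ, 0 < x → Filter.Tendsto (fun n : ℕ =>
      perc.real {ω | ω ∈ PlaneArm n ∧ (extent ω n : ℝ) ≤ x * n} / perc.real (PlaneArm n))
      Filter.atTop (nhds ((x / (1 + x)) ^ ((1:ℝ)/6)))) ∧
    (∀ x z : ℝ, 0 < x → 0 < z → Filter.Tendsto (fun n : ℕ =>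
      perc.real (StripArm ⌊x * n⌋₊ ⌊z * n⌋₊) / perc.real (PlaneArm n))
      Filter.atTop (nhds ((x / (z * (x + z))) ^ ((1:ℝ)/6)))) := by
  refine ⟨fun p r hp hr hr0 => ?_, fun r hr hr0 => ?_, fun p r hp hr => ?_, ?_,
    fun p r hp hr hr0 => ?_, fun x hx => ?_, fun x z hx hz => ?_⟩
  · exact Pool.Agent.H981R2.TP.PL.strip_exact hp hr hr0
  · exact Pool.Agent.H981R2.TP.PL.plane_exact hr hr0
  · exact Pool.Agent.H981R2.TP.PL.strip_asymp p r hp hr
  · exact Pool.Agent.H981R2.TP.PL.plane_asymp
  · exact Pool.Agent.V11321.ST.law hp hr hr0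
  · exact Pool.Agent.V11321.ST.limit_law x hx
  · exact Pool.Agent.V11321.ST.joint x z hx hz

end Pool.Agent.Results.MP_35f495_pr.SlitTipExact
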